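import Pool.Agent.TH178.HI.MultiHP
import Pool.Agent.W560.HP.Fin2
import Pool.Agent.W376.HP.NRM

/-! The Hilbert property for the varieties birational to a double cover `w² = f(t_1, ..., t_n)`,
`f` any polynomial of degree at most two in each variable, or to a double cover of a product of
projective spaces branched along any divisor of multidegree `(2, ..., 2)`, over finitely generated
fields of characteristic zero. -/

set_option autoImplicit false

namespace Pool.Agent.Results.MP_87f965_ag.ConicDoubleCovers

open AlgebraicGeometry CategoryTheory W560.HP Pool.Agent.TH178.HI Pool.Agent.TH178.MZ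

theorem result (k : Type) [Field k] [CharZero k]
    (hk : ∃ S : Finset k, IntermediateField.adjoin ℚ (S : Set k) = ⊤)
    (X : Scheme.{0}) (p : X ⟶ Spec (CommRingCat.of k)) [IsIntegral X] [LocallyOfFiniteType p] :
    (∀ (n : ℕ) (f : MvPolynomial (Fin n) k), f ≠ 0 → (∀ i, MvPolynomial.degreeOf i f ≤ 2) →
      BirationalToCover k f X p →
      [DensePoints k X p, HasSmoothPoint f, HilbertProperty k X p,
        UnirationalScheme k X p].TFAE ∧
      ((∀ x : X, IsIntegrallyClosed (X.presheaf.stalk x)) → DensePoints k X p →
        HilbertPropertyIso k X p)) ∧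
    (∀ (r : ℕ) (a : Fin r → ℕ) (F : MvPolynomial (Idx a) k), F ≠ 0 → IsMultiQuadratic F →
      BirationalToMultiCover k F X p →
      [DensePoints k X p, HasSmoothMultiPoint F, HilbertProperty k X p,
        UnirationalScheme k X p].TFAE ∧
      ((∀ x : X, IsIntegrallyClosed (X.presheaf.stalk x)) → DensePoints k X p →
        HilbertPropertyIso k X p)) := by
  constructor
  · intro n f hf hdeg hX
    have h := scheme_all hk f hf hdeg (fun h1 K _ _ hK => realizable_smooth f hdeg h1 K hK) X p hX
    exact ⟨h, fun h1 h2 => iso_of_hp Pool.Agent.W376.HP.nrm k X p h1 ((h.out 0 2).mp h2)⟩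
  · intro r a F hF0 hF hX
    have h := scheme_multi hk F hF0 hF X p hX
    exact ⟨h, fun h1 h2 => iso_of_hp Pool.Agent.W376.HP.nrm k X p h1 ((h.out 0 2).mp h2)⟩

end Pool.Agent.Results.MP_87f965_ag.ConicDoubleCovers
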