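import Pool.Agent.TH178.HI.CritFin
import Pool.Agent.W560.HP.Fin2
import Pool.Agent.W376.HP.NRM

/-! The Hilbert property of unirational varieties with several conic bundle structures. -/

set_option autoImplicit false

namespace Pool.Agent.Results.MP_87f965_ag.ManyConicBundles

open AlgebraicGeometry CategoryTheory W560.HP Pool.Agent.TH178.HI

theorem result (k : Type) [Field k] [CharZero k]
    (hk : ∃ S : Finset k, IntermediateField.adjoin ℚ (S : Set k) = ⊤) (K : Type) [Field K]
    [Algebra k K] (ι : Type) [Finite ι] (φ : K →ₐ[k] FractionRing (MvPolynomial ι k)) (I : Type)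
    (L : I → IntermediateField k K) (hL : ∀ i, IsConicOver (L i)) :
    (∃ M : IntermediateField k (FractionRing (MvPolynomial ι k)), IsCoverIn φ M ∧
      (∀ i, PulledBack φ (L i) M) ∧
      ∀ (X : Scheme.{0}) (p : X ⟶ Spec (CommRingCat.of k)) [IsIntegral X] [LocallyOfFiniteType p],
        HasFunctionField k X p M → HilbertProperty k X p) ∧
    ((∀ M : IntermediateField k (FractionRing (MvPolynomial ι k)), IsCoverIn φ M →
      (∀ i, PulledBack φ (L i) M) → M ≤ φ.fieldRange) →
      ∀ (X : Scheme.{0}) (p : X ⟶ Spec (CommRingCat.of k)) [IsIntegral X] [LocallyOfFiniteType p],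
        HasFunctionField k X p K → HilbertProperty k X p ∧
        ((∀ x : X, IsIntegrallyClosed (X.presheaf.stalk x)) → HilbertPropertyIso k X p)) := by
  obtain ⟨M, h1, h2, h3⟩ := field_criterion φ L hL
  refine ⟨⟨M, h1, h2, fun X p _ _ hX => h3.hilbert hk X p hX⟩, fun hM X p _ _ hX => ?_⟩
  have h4 : HilbertProperty k X p :=
    (realizable_of_le φ M h1.1 (hM M h1 h2) h3).hilbert hk X p hX
  exact ⟨h4, fun hn => iso_of_hp Pool.Agent.W376.HP.nrm k X p hn h4⟩

end Pool.Agent.Results.MP_87f965_ag.ManyConicBundles
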